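import Mathlib

namespace Pool.Agent.Results.MP_8629a4_co.PlaneCase

set_option linter.unusedSectionVars false
set_option linter.style.haveILetI false
set_option linter.unusedVariables false

open Finset Module
open scoped LinearAlgebra.Projectivization

/-- The list `L` of vectors is served by the columns of `M`. -/
def Served {F : Type} [Field F] {k t : ℕ} {ι : Type} (M : Matrix (Fin k) ι F)
    (L : Fin t → Fin k → F) : Prop :=
  ∃ X : Fin t → Finset ι, (∀ i j, i ≠ j → Disjoint (X i) (X j)) ∧
    ∀ i, L i ∈ Submodule.span F ((fun c r => M r c) '' (X i : Set ι))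

/-- There is a `t`-functional batch code of length `n` and dimension `k` over `F`. -/
def IsFB (F : Type) [Field F] (k t n : ℕ) : Prop :=
  ∃ M : Matrix (Fin k) (Fin n) F, LinearIndependent F (fun r => M r) ∧
    ∀ L : Fin t → Fin k → F, (∀ i, L i ≠ 0) → Served M L

/-- `θ_k(q)`. -/
def theta (q k : ℕ) : ℕ := ∑ i ∈ range k, q ^ i

variable {F : Type} [Field F] [Fintype F]

lemma card_proj (k : ℕ) : Nat.card (ℙ F (Fin k → F)) = theta (Fintype.card F) k := by
  rw [Projectivization.card_of_finrank F (Fin k → F) (n := k) (by simp), Nat.card_eq_fintype_card]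
  rfl

/-- A single column whose span contains a nonzero vector `v` is a representative of the point of
`v`. -/
lemma mk_eq {k : ℕ} {v w : Fin k → F} (hv : v ≠ 0) (h : v ∈ Submodule.span F {w}) :
    ∃ hw : w ≠ 0, Projectivization.mk F w hw = Projectivization.mk F v hv := by
  obtain ⟨a, rfl⟩ := Submodule.mem_span_singleton.mp h
  have ha : a ≠ 0 := by
    rintro rfl
    exact hv (zero_smul F w)
  have hw : w ≠ 0 := by
    rintro rfl
    exact hv (smul_zero a)
  refine ⟨hw, ?_⟩
  rw [Projectivization.mk_eq_mk_iff']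
  exact ⟨a⁻¹, by rw [smul_smul, inv_mul_cancel₀ ha, one_smul]⟩

lemma lower {k n : ℕ} (hk : 1 ≤ k) (h : IsFB F k (theta (Fintype.card F) k + 1) n) :
    2 * theta (Fintype.card F) k ≤ n := by
  classical
  obtain ⟨M, -, hM⟩ := h
  by_contra hn
  push Not at hn
  haveI : Finite (ℙ F (Fin k → F)) := inferInstance
  letI : Fintype (ℙ F (Fin k → F)) := Fintype.ofFinite _
  -- a point with at most one column
  obtain ⟨P, hP⟩ : ∃ P : ℙ F (Fin k → F),
      (univ.filter fun c : Fin n => ∃ hc : (fun r => M r c) ≠ 0,
        Projectivization.mk F (fun r => M r c) hc = P).card ≤ 1 := by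
    by_contra hno
    push Not at hno
    have h1 : ∑ P : ℙ F (Fin k → F), (univ.filter fun c : Fin n => ∃ hc : (fun r => M r c) ≠ 0,
        Projectivization.mk F (fun r => M r c) hc = P).card ≤ n := by
      rw [← card_biUnion]
      · calc _ ≤ (univ : Finset (Fin n)).card := card_le_univ _
          _ = n := by simp
      · intro P _ Q _ hPQ
        rw [Function.onFun, disjoint_left]
        intro c hc hc'
        rw [mem_filter] at hc hc'
        obtain ⟨-, h2, h3⟩ := hc
        obtain ⟨-, h4, h5⟩ := hc'
        exact hPQ (h3.symm.trans h5)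
    have h2 : ∑ P : ℙ F (Fin k → F), 2 ≤ ∑ P : ℙ F (Fin k → F),
        (univ.filter fun c : Fin n => ∃ hc : (fun r => M r c) ≠ 0,
        Projectivization.mk F (fun r => M r c) hc = P).card :=
      sum_le_sum fun P _ => hno P
    rw [sum_const, card_univ, ← Nat.card_eq_fintype_card, card_proj, smul_eq_mul] at h2
    omega
  obtain ⟨X, hd, hX⟩ := hM (fun _ => P.rep) (fun _ => P.rep_nonzero)
  -- every set is nonempty
  have hne : ∀ i, 1 ≤ (X i).card := by
    intro i
    rw [Nat.one_le_iff_ne_zero]
    intro h0
    rw [card_eq_zero] at h0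
    have := hX i
    rw [h0] at this
    simp only [coe_empty, Set.image_empty, Submodule.span_empty, Submodule.mem_bot] at this
    exact P.rep_nonzero this
  -- at most one set is a singleton
  have hone : ∀ i j, i ≠ j → (X i).card = 1 → (X j).card = 1 → False := by
    intro i j hij hi hj
    obtain ⟨c, hc⟩ := card_eq_one.mp hi
    obtain ⟨d, hd'⟩ := card_eq_one.mp hj
    have h1 := hX i
    have h2 := hX j
    rw [hc, coe_singleton, Set.image_singleton] at h1
    rw [hd', coe_singleton, Set.image_singleton] at h2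
    obtain ⟨h3, h4⟩ := mk_eq P.rep_nonzero h1
    obtain ⟨h5, h6⟩ := mk_eq P.rep_nonzero h2
    rw [P.mk_rep] at h4 h6
    have hcd : c ≠ d := by
      rintro rfl
      have := hd i j hij
      rw [hc, hd'] at this
      simp at this
    have h7 : ({c, d} : Finset (Fin n)) ⊆ univ.filter fun c : Fin n =>
        ∃ hc : (fun r => M r c) ≠ 0, Projectivization.mk F (fun r => M r c) hc = P := by
      intro e he
      rw [mem_insert, mem_singleton] at he
      rw [mem_filter]
      rcases he with rfl | rfl
      · exact ⟨mem_univ _, h3, h4⟩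
      · exact ⟨mem_univ _, h5, h6⟩
    have h8 := card_le_card h7
    rw [card_pair hcd] at h8
    omega
  have hsum : ∑ i, (X i).card ≤ n := by
    rw [← card_biUnion (fun i _ j _ hij => hd i j hij)]
    calc _ ≤ (univ : Finset (Fin n)).card := card_le_univ _
      _ = n := by simp
  -- all but one set have at least two elements
  obtain ⟨i₀, hi₀⟩ : ∃ i₀ : Fin (theta (Fintype.card F) k + 1), ∀ i, i ≠ i₀ → 2 ≤ (X i).card := by
    by_cases hex : ∃ i, (X i).card = 1
    · obtain ⟨i₀, hi₀⟩ := hex
      refine ⟨i₀, fun i hi => ?_⟩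
      have h1 := hne i
      by_contra h2
      exact hone i i₀ hi (by omega) hi₀
    · push Not at hex
      refine ⟨0, fun i _ => ?_⟩
      have h1 := hne i
      have h2 := hex i
      omega
  have h1 : 1 + 2 * theta (Fintype.card F) k ≤ ∑ i, (X i).card := by
    rw [← add_sum_erase _ _ (mem_univ i₀)]
    refine add_le_add (hne i₀) ?_
    calc 2 * theta (Fintype.card F) k
        = ∑ i ∈ univ.erase i₀, 2 := by
          rw [sum_const, card_erase_of_mem (mem_univ _), card_univ, Fintype.card_fin,
            smul_eq_mul, Nat.add_sub_cancel, mul_comm]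
      _ ≤ _ := sum_le_sum fun i hi => hi₀ i (ne_of_mem_erase hi)
  omega

lemma transfer {k t : ℕ} {ι κ : Type} (e : κ ≃ ι) (M : Matrix (Fin k) ι F) (L : Fin t → Fin k → F)
    (h : Served M L) : Served (fun r c => M r (e c)) L := by
  obtain ⟨X, hd, hX⟩ := h
  refine ⟨fun i => (X i).map e.symm.toEmbedding, ?_, ?_⟩
  · intro i j hij
    rw [disjoint_map]
    exact hd i j hij
  · intro i
    have : (fun (c : κ) (r : Fin k) => M r (e c)) '' (((X i).map e.symm.toEmbedding : Finset κ) : Set κ) =
        (fun (c : ι) (r : Fin k) => M r c) '' (X i : Set ι) := by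
      ext v
      constructor
      · rintro ⟨x, hx, rfl⟩
        rw [mem_coe, mem_map] at hx
        obtain ⟨y, hy, rfl⟩ := hx
        exact ⟨y, hy, by simp⟩
      · rintro ⟨x, hx, rfl⟩
        exact ⟨e.symm x, by simpa using hx, by simp⟩
    rw [this]
    exact hX i

lemma span_pair {P Q : ℙ F (Fin 2 → F)} (h : P ≠ Q) (v : Fin 2 → F) :
    v ∈ Submodule.span F {P.rep, Q.rep} := by
  have hli : LinearIndependent F ![P.rep, Q.rep] := by
    rw [LinearIndependent.pair_iff' P.rep_nonzero]
    intro a ha
    apply h
    rw [← P.mk_rep, ← Q.mk_rep, Projectivization.mk_eq_mk_iff']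
    have ha0 : a ≠ 0 := by
      rintro rfl
      rw [zero_smul] at ha
      exact Q.rep_nonzero ha.symm
    exact ⟨a⁻¹, by rw [← ha, smul_smul, inv_mul_cancel₀ ha0, one_smul]⟩
  have h1 := hli.span_eq_top_of_card_eq_finrank' (by simp)
  have h2 : Set.range ![P.rep, Q.rep] = {P.rep, Q.rep} := by simp [Set.pair_comm]
  rw [h2] at h1
  rw [h1]
  exact Submodule.mem_top

/-- A permutation without fixed points. -/
lemma exists_shift {S : Type} [Fintype S] (h : 2 ≤ Fintype.card S) :
    ∃ σ : S ≃ S, ∀ s, σ s ≠ s := by
  obtain ⟨m, hm⟩ : ∃ m, Fintype.card S = m + 2 := ⟨Fintype.card S - 2, by omega⟩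
  let e : S ≃ Fin (m + 2) := Fintype.equivFinOfCardEq hm
  refine ⟨e.trans ((finRotate (m + 2)).trans e.symm), fun s hs => ?_⟩
  have h1 := congrArg e hs
  simp only [Equiv.trans_apply, Equiv.apply_symm_apply, finRotate_apply] at h1
  simp at h1

lemma upper_two : IsFB F 2 (theta (Fintype.card F) 2 + 1) (2 * theta (Fintype.card F) 2) := by
  classical
  letI : Fintype (ℙ F (Fin 2 → F)) := Fintype.ofFinite _
  have hP : Fintype.card (ℙ F (Fin 2 → F)) = theta (Fintype.card F) 2 := by
    rw [← Nat.card_eq_fintype_card, card_proj]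
  have hq : 2 ≤ Fintype.card F := Fintype.one_lt_card
  have hθ : theta (Fintype.card F) 2 = Fintype.card F + 1 := by
    simp [theta, sum_range_succ, add_comm]
  let M : Matrix (Fin 2) (Bool × ℙ F (Fin 2 → F)) F := fun r c => c.2.rep r
  have hcard : Fintype.card (Bool × ℙ F (Fin 2 → F)) = 2 * theta (Fintype.card F) 2 := by
    rw [Fintype.card_prod, Fintype.card_bool, hP]
  let e : Fin (2 * theta (Fintype.card F) 2) ≃ Bool × ℙ F (Fin 2 → F) :=
    (Fintype.equivFinOfCardEq hcard).symm
  refine ⟨fun r c => M r (e c), ?_, fun L hL => transfer e M L ?_⟩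
  · rw [Fintype.linearIndependent_iff]
    intro g hg r
    have hs : (Pi.single r 1 : Fin 2 → F) ≠ 0 := by simp
    obtain ⟨a, ha⟩ := Projectivization.exists_smul_eq_mk_rep F (Pi.single r 1 : Fin 2 → F) hs
    have h1 := congrFun hg
      (e.symm (false, Projectivization.mk F (Pi.single r 1 : Fin 2 → F) hs))
    simp only [M, Finset.sum_apply, Pi.smul_apply, Equiv.apply_symm_apply, smul_eq_mul,
      Pi.zero_apply] at h1
    rw [← ha] at h1
    simp only [Pi.smul_apply, Units.smul_def, smul_eq_mul] at h1
    rw [Finset.sum_eq_single r (by intro b _ hb; simp [Pi.single_apply, hb]) (by simp)] at h1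
    simpa using h1
  · let f : Fin (theta (Fintype.card F) 2 + 1) → ℙ F (Fin 2 → F) :=
      fun i => Projectivization.mk F (L i) (hL i)
    obtain ⟨i, i', hii, hf⟩ := Fintype.exists_ne_map_eq_of_card_lt f (by
      rw [hP, Fintype.card_fin]; omega)
    let I := {j : Fin (theta (Fintype.card F) 2 + 1) // j ≠ i ∧ j ≠ i'}
    let S := {Q : ℙ F (Fin 2 → F) // Q ≠ f i}
    have hS : Fintype.card S = Fintype.card F := by
      have h1 := Fintype.card_subtype_compl (fun Q : ℙ F (Fin 2 → F) => Q = f i)
      rw [Fintype.card_subtype_eq, hP, hθ, Nat.add_sub_cancel] at h1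
      exact h1
    have hI : Fintype.card I = Fintype.card F := by
      have h1 : Fintype.card I = (univ \ ({i, i'} : Finset _)).card := by
        rw [Fintype.card_subtype]
        congr 1
        ext j
        simp
      rw [h1, card_sdiff_of_subset (subset_univ _), card_univ, Fintype.card_fin, card_pair hii, hθ]
      omega
    let g : I ≃ S := Fintype.equivOfCardEq (hI.trans hS.symm)
    obtain ⟨σ, hσ⟩ := exists_shift (S := S) (by rw [hS]; exact hq)
    let own : Bool × ℙ F (Fin 2 → F) → Fin (theta (Fintype.card F) 2 + 1) := fun c =>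
      if h : c.2 = f i then (if c.1 then i' else i)
      else (if c.1 then (g.symm (σ.symm ⟨c.2, h⟩)).1 else (g.symm ⟨c.2, h⟩).1)
    refine ⟨fun j => univ.filter fun c => own c = j, ?_, ?_⟩
    · intro j j' hjj
      rw [disjoint_left]
      intro c hc hc'
      rw [mem_filter] at hc hc'
      exact hjj (hc.2.symm.trans hc'.2)
    · intro j
      have hcol : ∀ c, (fun r => M r c) = c.2.rep := fun c => rfl
      have hmem : ∀ c, own c = j → c.2.rep ∈ (fun (c : Bool × ℙ F (Fin 2 → F)) (r : Fin 2) => M r c) ''
          ((univ.filter fun c => own c = j : Finset _) : Set (Bool × ℙ F (Fin 2 → F))) := by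
        intro c hc
        exact ⟨c, by simp [hc], hcol c⟩
      -- a multiple of a representative
      have hrep : ∀ c, own c = j → c.2 = f j → L j ∈ Submodule.span F
          ((fun (c : Bool × ℙ F (Fin 2 → F)) (r : Fin 2) => M r c) ''
          ((univ.filter fun c => own c = j : Finset _) : Set (Bool × ℙ F (Fin 2 → F)))) := by
        intro c hc hcf
        obtain ⟨a, ha⟩ := Projectivization.exists_smul_eq_mk_rep F (L j) (hL j)
        have h1 : L j = (a⁻¹ : Fˣ) • c.2.rep := by
          rw [hcf, ← ha, smul_smul, inv_mul_cancel, one_smul]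
        rw [h1, Units.smul_def]
        exact Submodule.smul_mem _ _ (Submodule.subset_span (hmem c hc))
      by_cases hji : j = i
      · refine hrep (false, f i) ?_ (by rw [hji])
        simp [own, hji]
      · by_cases hji' : j = i'
        · refine hrep (true, f i) ?_ (by rw [hji']; exact hf)
          simp [own, hji']
        · have h1 : own (false, (g ⟨j, hji, hji'⟩).1) = j := by
            simp [own, (g ⟨j, hji, hji'⟩).2]
          have h2 : own (true, (σ (g ⟨j, hji, hji'⟩)).1) = j := by
            simp [own, (σ (g ⟨j, hji, hji'⟩)).2]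
          have h3 : (g ⟨j, hji, hji'⟩).1 ≠ (σ (g ⟨j, hji, hji'⟩)).1 := by
            intro h4
            exact hσ _ (Subtype.ext h4.symm)
          refine Submodule.span_mono ?_ (span_pair h3 (L j))
          rintro w (rfl | rfl)
          · exact hmem (false, _) h1
          · exact hmem (true, _) h2

lemma upper_one : IsFB F 1 (theta (Fintype.card F) 1 + 1) (2 * theta (Fintype.card F) 1) := by
  have hθ : theta (Fintype.card F) 1 = 1 := by simp [theta]
  rw [hθ]
  refine ⟨fun _ _ => 1, ?_, fun L hL => ⟨fun i => {i}, ?_, ?_⟩⟩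
  · rw [Fintype.linearIndependent_iff]
    intro g hg r
    have h1 := congrFun hg 0
    simp only [Finset.sum_apply, Pi.smul_apply, smul_eq_mul, mul_one, Pi.zero_apply,
      Fin.sum_univ_one] at h1
    rw [Subsingleton.elim r 0]
    exact h1
  · intro i j hij
    simpa using hij
  · intro i
    rw [coe_singleton, Set.image_singleton, Submodule.mem_span_singleton]
    refine ⟨L i 0, ?_⟩
    ext r
    rw [Subsingleton.elim r 0]
    simp

/-- For every finite field with `q` elements, `FB(k, θ_k(q) + 1, q) = 2 θ_k(q)` for `k = 1` and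
`k = 2`. -/
theorem result (F : Type) [Field F] [Fintype F] (k : ℕ) (hk : k = 1 ∨ k = 2) :
    IsLeast {n | IsFB F k (theta (Fintype.card F) k + 1) n} (2 * theta (Fintype.card F) k) := by
  rcases hk with rfl | rfl
  · exact ⟨upper_one, fun n hn => lower le_rfl hn⟩
  · exact ⟨upper_two, fun n hn => lower (by norm_num) hn⟩

end Pool.Agent.Results.MP_8629a4_co.PlaneCase
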